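import Mathlib

/-!
# MP_fb2988_co: special super edge-magic star forests with at most two components

A star forest with one or two components (all star sizes positive) is special super edge-magic if and only if it has
exactly one component. In particular `K_{1,m} ∪ K_{1,n}` is never special super edge-magic.
-/

set_option autoImplicit false

namespace Pool.Agent.Results.MP_fb2988_co.AtMostTwoStars

/-- The star forest with star sizes `m i`: the vertex `⟨i, none⟩` is the centre of the `i`-th star, the vertices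
`⟨i, some j⟩` are its `m i` leaves. -/
def starForest {t : ℕ} (m : Fin t → ℕ) : SimpleGraph (Σ i : Fin t, Option (Fin (m i))) where
  Adj u v := u.1 = v.1 ∧ u.2.isNone ≠ v.2.isNone
  symm := ⟨fun _ _ h => ⟨h.1.symm, h.2.symm⟩⟩
  loopless := ⟨fun _ h => h.2 rfl⟩

/-- A finite graph is special super edge-magic: there are a partition of the vertex set into two stable sets `A`, `Aᶜ` and
a bijection `f` from the vertices onto `[1, p]` with `f(A) = [1, |A|]` such that the edge sums `f u + f v` are pairwise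
different and form a set of consecutive integers. -/
def IsSSEM {V : Type*} [Fintype V] (G : SimpleGraph V) : Prop :=
  ∃ (A : Finset V) (f : V → ℕ),
    (∀ u ∈ A, ∀ v ∈ A, ¬ G.Adj u v) ∧ (∀ u ∉ A, ∀ v ∉ A, ¬ G.Adj u v) ∧
    Set.BijOn f Set.univ (Set.Icc 1 (Fintype.card V)) ∧
    f '' (A : Set V) = Set.Icc 1 A.card ∧
    (∀ u v u' v' : V, G.Adj u v → G.Adj u' v' → f u + f v = f u' + f v' → s(u, v) = s(u', v')) ∧
    ∃ s q : ℕ, {k | ∃ u v, G.Adj u v ∧ k = f u + f v} = Set.Ico s (s + q)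

theorem transition (X Y : Set ℕ) (lo hi : ℕ) (hX : X.Nonempty) (hY : Y.Nonempty)
    (hXY : ∀ k, k ∈ X → k ∈ Y → False)
    (hcov : ∀ k, (k ∈ X ∨ k ∈ Y) ↔ (lo ≤ k ∧ k ≤ hi)) :
    ∃ k, (k ∈ X ∧ k + 1 ∈ Y) ∨ (k ∈ Y ∧ k + 1 ∈ X) := by
  by_contra hno
  push Not at hno
  obtain ⟨x, hx⟩ := hX
  obtain ⟨y, hy⟩ := hY
  have hx' := (hcov x).1 (Or.inl hx)
  have hy' := (hcov y).1 (Or.inr hy)
  rcases le_total x y with h | h
  · have key : ∀ d, x + d ≤ y → x + d ∈ X := by
      intro d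
      induction d with
      | zero => intro _; exact hx
      | succ d ih =>
        intro hd
        have h1 := ih (by omega)
        have h2 := (hno (x + d)).1 h1
        rcases (hcov (x + d + 1)).2 (by omega) with h3 | h3
        · exact h3
        · exact absurd h3 h2
    have := key (y - x) (by omega)
    rw [show x + (y - x) = y by omega] at this
    exact hXY y this hy
  · have key : ∀ d, y + d ≤ x → y + d ∈ Y := by
      intro d
      induction d with
      | zero => intro _; exact hy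
      | succ d ih =>
        intro hd
        have h1 := ih (by omega)
        have h2 := (hno (y + d)).2 h1
        rcases (hcov (y + d + 1)).2 (by omega) with h3 | h3
        · exact absurd h3 h2
        · exact h3
    have := key (x - y) (by omega)
    rw [show y + (x - y) = x by omega] at this
    exact hXY x hx this

/-- The set of edge sums of the two stars. -/
def S (a b : ℕ) (X Y : Set ℕ) (k : ℕ) : Prop := (∃ x ∈ X, k = a + x) ∨ (∃ y ∈ Y, k = b + y)

theorem consec (a b lo hi : ℕ) (X Y : Set ℕ) (hX : X.Nonempty) (hY : Y.Nonempty)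
    (hXY : ∀ k, k ∈ X → k ∈ Y → False)
    (hcov : ∀ k, (k ∈ X ∨ k ∈ Y) ↔ (lo ≤ k ∧ k ≤ hi))
    (hinj : ∀ x ∈ X, ∀ y ∈ Y, a + x ≠ b + y)
    (hS : ∀ u v w, S a b X Y u → S a b X Y w → u ≤ v → v ≤ w → S a b X Y v)
    (hab : b = a + 1 ∨ a = b + 1) : False := by
  obtain ⟨k, hk⟩ := transition X Y lo hi hX hY hXY hcov
  rcases hab with h | h <;> rcases hk with ⟨h1, h2⟩ | ⟨h1, h2⟩
  · rcases hS (a + k) (a + k + 1) (b + (k + 1)) (Or.inl ⟨k, h1, rfl⟩) (Or.inr ⟨k + 1, h2, rfl⟩)
      (by omega) (by omega) with ⟨x, hx, e⟩ | ⟨y, hy, e⟩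
    · have : x = k + 1 := by omega
      subst this; exact hXY _ hx h2
    · have : y = k := by omega
      subst this; exact hXY _ h1 hy
  · exact hinj _ h2 _ h1 (by omega)
  · exact hinj _ h1 _ h2 (by omega)
  · rcases hS (b + k) (b + k + 1) (a + (k + 1)) (Or.inr ⟨k, h1, rfl⟩) (Or.inl ⟨k + 1, h2, rfl⟩)
      (by omega) (by omega) with ⟨x, hx, e⟩ | ⟨y, hy, e⟩
    · have : x = k := by omega
      subst this; exact hXY _ hx h1
    · have : y = k + 1 := by omega
      subst this; exact hXY _ h2 hy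

theorem mixed (p N a b : ℕ) (X Y : Set ℕ) (hX : X.Nonempty) (hY : Y.Nonempty)
    (haX : a ∉ X) (haY : a ∉ Y) (hbX : b ∉ X) (hbY : b ∉ Y)
    (hlow : ∀ k, (k = a ∨ k ∈ Y) ↔ (1 ≤ k ∧ k ≤ N))
    (hhigh : ∀ k, (k = b ∨ k ∈ X) ↔ (N + 1 ≤ k ∧ k ≤ p))
    (hinj : ∀ x ∈ X, ∀ y ∈ Y, a + x ≠ b + y)
    (hS : ∀ u v w, S a b X Y u → S a b X Y w → u ≤ v → v ≤ w → S a b X Y v) : False := by
  have hXm : ∀ k, N + 1 ≤ k → k ≤ p → k ≠ b → k ∈ X := by
    intro k h1 h2 h3
    rcases (hhigh k).2 ⟨h1, h2⟩ with h | h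
    · exact absurd h h3
    · exact h
  have hYm : ∀ k, 1 ≤ k → k ≤ N → k ≠ a → k ∈ Y := by
    intro k h1 h2 h3
    rcases (hlow k).2 ⟨h1, h2⟩ with h | h
    · exact absurd h h3
    · exact h
  have ha := (hlow a).1 (Or.inl rfl)
  have hb := (hhigh b).1 (Or.inl rfl)
  obtain ⟨x, hx⟩ := hX
  obtain ⟨y, hy⟩ := hY
  have hx' := (hhigh x).1 (Or.inr hx)
  have hy' := (hlow y).1 (Or.inr hy)
  have hxb : x ≠ b := fun e => hbX (e ▸ hx)
  have hya : y ≠ a := fun e => haY (e ▸ hy)
  have hnot : ¬ S a b X Y (a + b) := by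
    rintro (⟨x, hx, e⟩ | ⟨y, hy, e⟩)
    · have : x = b := by omega
      subst this; exact hbX hx
    · have : y = a := by omega
      subst this; exact haY hy
  have h1 : a = N ∨ b = p := by
    by_contra h
    push Not at h
    exact hinj (b + 1) (hXm _ (by omega) (by omega) (by omega)) (a + 1)
      (hYm _ (by omega) (by omega) (by omega)) (by omega)
  have h2 : a = 1 ∨ b = N + 1 := by
    by_contra h
    push Not at h
    exact hinj (b - 1) (hXm _ (by omega) (by omega) (by omega)) (a - 1)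
      (hYm _ (by omega) (by omega) (by omega)) (by omega)
  rcases h1 with h1 | h1
  · have h3 : b = N + 1 := by omega
    exact hnot (hS (b + (a - 1)) (a + b) (a + (b + 1))
      (Or.inr ⟨a - 1, hYm _ (by omega) (by omega) (by omega), rfl⟩)
      (Or.inl ⟨b + 1, hXm _ (by omega) (by omega) (by omega), rfl⟩) (by omega) (by omega))
  · have h3 : a = 1 := by omega
    exact hnot (hS (a + (b - 1)) (a + b) (b + (a + 1))
      (Or.inl ⟨b - 1, hXm _ (by omega) (by omega) (by omega), rfl⟩)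
      (Or.inr ⟨a + 1, hYm _ (by omega) (by omega) (by omega), rfl⟩) (by omega) (by omega))

theorem pure (p N a b : ℕ) (X Y : Set ℕ) (hX : X.Nonempty) (hY : Y.Nonempty) (hab : a ≠ b)
    (haX : a ∉ X) (haY : a ∉ Y) (hbX : b ∉ X) (hbY : b ∉ Y) (hXY : ∀ k, k ∈ X → k ∈ Y → False)
    (hcov : ∀ k, (k = a ∨ k = b ∨ k ∈ X ∨ k ∈ Y) ↔ (1 ≤ k ∧ k ≤ p))
    (hinj : ∀ x ∈ X, ∀ y ∈ Y, a + x ≠ b + y)
    (hS : ∀ u v w, S a b X Y u → S a b X Y w → u ≤ v → v ≤ w → S a b X Y v)
    (hT : (∀ k, (k = a ∨ k = b) ↔ (1 ≤ k ∧ k ≤ N)) ∨ (∀ k, (k ∈ X ∨ k ∈ Y) ↔ (1 ≤ k ∧ k ≤ N)) ∨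
      (∀ k, (k = a ∨ k ∈ Y) ↔ (1 ≤ k ∧ k ≤ N)) ∨ (∀ k, (k = b ∨ k ∈ X) ↔ (1 ≤ k ∧ k ≤ N))) : False := by
  rcases hT with hT | hT | hT | hT
  · have ha := (hT a).1 (Or.inl rfl)
    have hb := (hT b).1 (Or.inr rfl)
    have h1 := (hT 1).2 (by omega)
    have h2 := (hT 2).2 (by omega)
    have h3 : N = 2 := by
      by_contra h
      have := (hT 3).2 (by omega)
      omega
    refine consec a b 3 p X Y hX hY hXY ?_ hinj hS (by omega)
    intro k
    constructor
    · intro hk
      have hk1 := (hcov k).1 (Or.inr (Or.inr hk))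
      refine ⟨?_, hk1.2⟩
      by_contra hlt
      rcases (hT k).2 (by omega) with e | e
      · subst e; rcases hk with hk | hk
        · exact haX hk
        · exact haY hk
      · subst e; rcases hk with hk | hk
        · exact hbX hk
        · exact hbY hk
    · intro hk
      rcases (hcov k).2 (by omega) with e | e | e | e
      · omega
      · omega
      · exact Or.inl e
      · exact Or.inr e
  · have ha := (hcov a).1 (Or.inl rfl)
    have hb := (hcov b).1 (Or.inr (Or.inl rfl))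
    have haN : N < a := by
      by_contra h
      rcases (hT a).2 (by omega) with h | h
      · exact haX h
      · exact haY h
    have hbN : N < b := by
      by_contra h
      rcases (hT b).2 (by omega) with h | h
      · exact hbX h
      · exact hbY h
    have key : ∀ k, N < k → k ≤ p → k = a ∨ k = b := by
      intro k h1 h2
      rcases (hcov k).2 (by omega) with e | e | e | e
      · exact Or.inl e
      · exact Or.inr e
      · have := (hT k).1 (Or.inl e); omega
      · have := (hT k).1 (Or.inr e); omega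
    have h1 := key (N + 1) (by omega) (by omega)
    have h2 := key (N + 2) (by omega) (by omega)
    exact consec a b 1 N X Y hX hY hXY hT hinj hS (by omega)
  · refine mixed p N a b X Y hX hY haX haY hbX hbY hT ?_ hinj hS
    intro k
    constructor
    · intro hk
      have hk1 := (hcov k).1 (by rcases hk with h | h <;> simp [h])
      refine ⟨?_, hk1.2⟩
      by_contra hlt
      rcases (hT k).2 (by omega) with e | e <;> rcases hk with hk | hk
      · omega
      · subst e; exact haX hk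
      · subst hk; exact hbY e
      · exact hXY k hk e
    · intro hk
      rcases (hcov k).2 (by omega) with e | e | e | e
      · have := (hT k).1 (Or.inl e); omega
      · exact Or.inl e
      · exact Or.inr e
      · have := (hT k).1 (Or.inr e); omega
  · refine mixed p N b a Y X hY hX hbY hbX haY haX hT ?_ (fun y hy x hx e => hinj x hx y hy e.symm) ?_
    · intro k
      constructor
      · intro hk
        have hk1 := (hcov k).1 (by rcases hk with h | h <;> simp [h])
        refine ⟨?_, hk1.2⟩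
        by_contra hlt
        rcases (hT k).2 (by omega) with e | e <;> rcases hk with hk | hk
        · omega
        · subst e; exact hbY hk
        · subst hk; exact haX e
        · exact hXY k e hk
      · intro hk
        rcases (hcov k).2 (by omega) with e | e | e | e
        · exact Or.inl e
        · have := (hT k).1 (Or.inl e); omega
        · have := (hT k).1 (Or.inr e); omega
        · exact Or.inr e
    · intro u v w hu hw h1 h2
      exact (hS u v w hu.symm hw.symm h1 h2).symm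

theorem cases4 (m : Fin 2 → ℕ) : ∀ v : (Σ i : Fin 2, Option (Fin (m i))),
    v = ⟨0, none⟩ ∨ v = ⟨1, none⟩ ∨ (∃ j : Fin (m 0), v = ⟨0, some j⟩) ∨ (∃ j : Fin (m 1), v = ⟨1, some j⟩)
  | ⟨0, none⟩ => Or.inl rfl
  | ⟨1, none⟩ => Or.inr (Or.inl rfl)
  | ⟨0, some j⟩ => Or.inr (Or.inr (Or.inl ⟨j, rfl⟩))
  | ⟨1, some j⟩ => Or.inr (Or.inr (Or.inr ⟨j, rfl⟩))

theorem adj_leaf {t : ℕ} (m : Fin t → ℕ) (i : Fin t) (j : Fin (m i)) :
    (starForest m).Adj ⟨i, none⟩ ⟨i, some j⟩ := ⟨rfl, by simp⟩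

theorem two (m : Fin 2 → ℕ) (hm : ∀ i, 1 ≤ m i) : ¬ IsSSEM (starForest m) := by
  rintro ⟨A, f, hA, hAc, hbij, hfA, hdist, s, q, hsum⟩
  have hinjf : Function.Injective f := fun u v h => hbij.2.1 (Set.mem_univ _) (Set.mem_univ _) h
  have hne : ∀ u v : (Σ i : Fin 2, Option (Fin (m i))), u ≠ v → f u ≠ f v := fun u v h e => h (hinjf e)
  have hedge : ∀ (i : Fin 2) (j : Fin (m i)),
      ((⟨i, some j⟩ : (Σ i : Fin 2, Option (Fin (m i)))) ∈ A ↔ ¬ (⟨i, none⟩ : (Σ i : Fin 2, Option (Fin (m i)))) ∈ A) := by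
    intro i j
    constructor
    · intro h1 h2
      exact hA _ h2 _ h1 (adj_leaf m i j)
    · intro h2
      by_contra h1
      exact hAc _ h2 _ h1 (adj_leaf m i j)
  have hPA : ∀ k, (∃ v ∈ A, f v = k) ↔ (1 ≤ k ∧ k ≤ A.card) := by
    intro k
    have : k ∈ f '' (A : Set _) ↔ k ∈ Set.Icc 1 A.card := by rw [hfA]
    simpa using this
  have hPV : ∀ k, (∃ v, f v = k) ↔
      (1 ≤ k ∧ k ≤ Fintype.card (Σ i : Fin 2, Option (Fin (m i)))) := by
    intro k
    have : k ∈ f '' Set.univ ↔ k ∈ Set.Icc 1 (Fintype.card (Σ i : Fin 2, Option (Fin (m i)))) := by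
      rw [hbij.image_eq]
    simpa using this
  refine pure (Fintype.card (Σ i : Fin 2, Option (Fin (m i)))) A.card (f ⟨0, none⟩) (f ⟨1, none⟩)
    {k | ∃ j : Fin (m 0), k = f ⟨0, some j⟩} {k | ∃ j : Fin (m 1), k = f ⟨1, some j⟩}
    ⟨_, ⟨0, hm 0⟩, rfl⟩ ⟨_, ⟨0, hm 1⟩, rfl⟩ (hne _ _ (by simp)) ?_ ?_ ?_ ?_ ?_ ?_ ?_ ?_ ?_
  · rintro ⟨j, e⟩; exact hne _ _ (by simp) e
  · rintro ⟨j, e⟩; exact hne _ _ (by simp) e
  · rintro ⟨j, e⟩; exact hne _ _ (by simp) e
  · rintro ⟨j, e⟩; exact hne _ _ (by simp) e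
  · rintro k ⟨j, e⟩ ⟨j', e'⟩; exact hne _ _ (by simp) (e.symm.trans e')
  · intro k
    rw [← hPV k]
    constructor
    · rintro (e | e | ⟨j, e⟩ | ⟨j, e⟩) <;> exact ⟨_, e.symm⟩
    · rintro ⟨v, e⟩
      rcases cases4 m v with h | h | ⟨j, h⟩ | ⟨j, h⟩ <;> subst h
      · exact Or.inl e.symm
      · exact Or.inr (Or.inl e.symm)
      · exact Or.inr (Or.inr (Or.inl ⟨j, e.symm⟩))
      · exact Or.inr (Or.inr (Or.inr ⟨j, e.symm⟩))
  · rintro x ⟨j, rfl⟩ y ⟨j', rfl⟩ e
    have := hdist _ _ _ _ (adj_leaf m 0 j) (adj_leaf m 1 j') e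
    rw [Sym2.eq_iff] at this
    rcases this with ⟨h, -⟩ | ⟨h, -⟩ <;> simp at h
  · have hSiff : ∀ k, S (f ⟨0, none⟩) (f ⟨1, none⟩) {k | ∃ j : Fin (m 0), k = f ⟨0, some j⟩}
        {k | ∃ j : Fin (m 1), k = f ⟨1, some j⟩} k ↔ (s ≤ k ∧ k < s + q) := by
      intro k
      have h0 : k ∈ {k | ∃ u v, (starForest m).Adj u v ∧ k = f u + f v} ↔ k ∈ Set.Ico s (s + q) := by
        rw [hsum]
      rw [Set.mem_Ico] at h0
      rw [← h0]
      constructor
      · rintro (⟨_, ⟨j, rfl⟩, e⟩ | ⟨_, ⟨j, rfl⟩, e⟩)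
        · exact ⟨_, _, adj_leaf m 0 j, e⟩
        · exact ⟨_, _, adj_leaf m 1 j, e⟩
      · rintro ⟨u, v, huv, e⟩
        rcases cases4 m u with h | h | ⟨j, h⟩ | ⟨j, h⟩ <;>
          rcases cases4 m v with h' | h' | ⟨j', h'⟩ | ⟨j', h'⟩ <;> subst h <;> subst h' <;>
          simp [starForest] at huv
        · exact Or.inl ⟨_, ⟨j', rfl⟩, e⟩
        · exact Or.inr ⟨_, ⟨j', rfl⟩, e⟩
        · exact Or.inl ⟨_, ⟨j, rfl⟩, by omega⟩
        · exact Or.inr ⟨_, ⟨j, rfl⟩, by omega⟩
    intro u v w hu hw h1 h2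
    rw [hSiff] at hu hw ⊢
    omega
  · by_cases h0 : (⟨0, none⟩ : (Σ i : Fin 2, Option (Fin (m i)))) ∈ A <;>
      by_cases h1 : (⟨1, none⟩ : (Σ i : Fin 2, Option (Fin (m i)))) ∈ A
    · left
      intro k
      rw [← hPA k]
      constructor
      · rintro (e | e)
        · exact ⟨_, h0, e.symm⟩
        · exact ⟨_, h1, e.symm⟩
      · rintro ⟨v, hv, e⟩
        rcases cases4 m v with h | h | ⟨j, h⟩ | ⟨j, h⟩ <;> subst h
        · exact Or.inl e.symm
        · exact Or.inr e.symm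
        · exact absurd h0 ((hedge 0 j).1 hv)
        · exact absurd h1 ((hedge 1 j).1 hv)
    · right; right; left
      intro k
      rw [← hPA k]
      constructor
      · rintro (e | ⟨j, e⟩)
        · exact ⟨_, h0, e.symm⟩
        · exact ⟨_, (hedge 1 j).2 h1, e.symm⟩
      · rintro ⟨v, hv, e⟩
        rcases cases4 m v with h | h | ⟨j, h⟩ | ⟨j, h⟩ <;> subst h
        · exact Or.inl e.symm
        · exact absurd hv h1
        · exact absurd h0 ((hedge 0 j).1 hv)
        · exact Or.inr ⟨j, e.symm⟩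
    · right; right; right
      intro k
      rw [← hPA k]
      constructor
      · rintro (e | ⟨j, e⟩)
        · exact ⟨_, h1, e.symm⟩
        · exact ⟨_, (hedge 0 j).2 h0, e.symm⟩
      · rintro ⟨v, hv, e⟩
        rcases cases4 m v with h | h | ⟨j, h⟩ | ⟨j, h⟩ <;> subst h
        · exact absurd hv h0
        · exact Or.inl e.symm
        · exact Or.inr ⟨j, e.symm⟩
        · exact absurd h1 ((hedge 1 j).1 hv)
    · right; left
      intro k
      rw [← hPA k]
      constructor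
      · rintro (⟨j, e⟩ | ⟨j, e⟩)
        · exact ⟨_, (hedge 0 j).2 h0, e.symm⟩
        · exact ⟨_, (hedge 1 j).2 h1, e.symm⟩
      · rintro ⟨v, hv, e⟩
        rcases cases4 m v with h | h | ⟨j, h⟩ | ⟨j, h⟩ <;> subst h
        · exact absurd hv h0
        · exact absurd hv h1
        · exact Or.inl ⟨j, e.symm⟩
        · exact Or.inr ⟨j, e.symm⟩

theorem cases1 (m : Fin 1 → ℕ) : ∀ v : (Σ i : Fin 1, Option (Fin (m i))),
    v = ⟨0, none⟩ ∨ (∃ j : Fin (m 0), v = ⟨0, some j⟩)
  | ⟨0, none⟩ => Or.inl rfl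
  | ⟨0, some j⟩ => Or.inr ⟨j, rfl⟩

theorem one (m : Fin 1 → ℕ) : IsSSEM (starForest m) := by
  have hcard : Fintype.card (Σ i : Fin 1, Option (Fin (m i))) = m 0 + 1 := by
    simp [Fintype.card_sigma]
  let f : (Σ i : Fin 1, Option (Fin (m i))) → ℕ := fun v => v.2.elim 1 (fun j => j.val + 2)
  have hf0 : f ⟨0, none⟩ = 1 := rfl
  have hf1 : ∀ j : Fin (m 0), f ⟨0, some j⟩ = j.val + 2 := fun j => rfl
  have hadj : ∀ u v, (starForest m).Adj u v → ∃ j : Fin (m 0),
      (u = ⟨0, none⟩ ∧ v = ⟨0, some j⟩) ∨ (u = ⟨0, some j⟩ ∧ v = ⟨0, none⟩) := by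
    intro u v huv
    rcases cases1 m u with h | ⟨j, h⟩ <;> rcases cases1 m v with h' | ⟨j', h'⟩ <;>
      subst h <;> subst h'
    · simp [starForest] at huv
    · exact ⟨j', Or.inl ⟨rfl, rfl⟩⟩
    · exact ⟨j, Or.inr ⟨rfl, rfl⟩⟩
    · simp [starForest] at huv
  refine ⟨{⟨0, none⟩}, f, ?_, ?_, ?_, ?_, ?_, ?_⟩
  · intro u hu v hv
    rw [Finset.mem_singleton] at hu hv
    subst hu; subst hv
    simp [starForest]
  · intro u hu v hv huv
    obtain ⟨j, ⟨h, -⟩ | ⟨-, h⟩⟩ := hadj u v huv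
    · exact hu (by simp [h])
    · exact hv (by simp [h])
  · rw [hcard]
    refine ⟨?_, ?_, ?_⟩
    · intro v _
      rcases cases1 m v with h | ⟨j, h⟩ <;> subst h
      · simp [hf0]
      · rw [hf1]
        exact ⟨by omega, by have := j.2; omega⟩
    · intro u _ v _ e
      rcases cases1 m u with h | ⟨j, h⟩ <;> rcases cases1 m v with h' | ⟨j', h'⟩ <;>
        subst h <;> subst h'
      · rfl
      · rw [hf0, hf1] at e; omega
      · rw [hf0, hf1] at e; omega
      · rw [hf1, hf1] at e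
        have : j = j' := Fin.ext (by omega)
        rw [this]
    · rintro k ⟨h1, h2⟩
      by_cases hk : k = 1
      · exact ⟨⟨0, none⟩, Set.mem_univ _, by rw [hf0, hk]⟩
      · exact ⟨⟨0, some ⟨k - 2, by omega⟩⟩, Set.mem_univ _, by rw [hf1]; simp only; omega⟩
  · ext k
    simp only [Finset.coe_singleton, Set.image_singleton, Set.mem_singleton_iff,
      Finset.card_singleton, Set.mem_Icc, hf0]
    omega
  · intro u v u' v' h h' e
    obtain ⟨j, ⟨h1, h2⟩ | ⟨h1, h2⟩⟩ := hadj u v h <;>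
      obtain ⟨j', ⟨h3, h4⟩ | ⟨h3, h4⟩⟩ := hadj u' v' h' <;> subst h1 h2 h3 h4 <;>
      simp only [hf0, hf1] at e
    · have : j = j' := Fin.ext (by omega)
      rw [this]
    · have : j = j' := Fin.ext (by omega)
      rw [this, Sym2.eq_swap]
    · have : j = j' := Fin.ext (by omega)
      rw [this, Sym2.eq_swap]
    · have : j = j' := Fin.ext (by omega)
      rw [this]
  · refine ⟨3, m 0, ?_⟩
    ext k
    constructor
    · rintro ⟨u, v, h, e⟩
      obtain ⟨j, ⟨h1, h2⟩ | ⟨h1, h2⟩⟩ := hadj u v h <;> subst h1 h2 <;>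
        simp only [hf0, hf1] at e <;> refine ⟨by omega, by have := j.2; omega⟩
    · rintro ⟨h1, h2⟩
      exact ⟨⟨0, none⟩, ⟨0, some ⟨k - 3, by omega⟩⟩, adj_leaf m 0 _, by rw [hf0, hf1]; simp only; omega⟩

/-- A star forest with one or two components is special super edge-magic if and only if it is a single star. -/
theorem result (t : ℕ) (ht : 1 ≤ t) (ht' : t ≤ 2) (m : Fin t → ℕ) (hm : ∀ i, 1 ≤ m i) :
    IsSSEM (starForest m) ↔ t = 1 := by
  have h : t = 1 ∨ t = 2 := by omega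
  rcases h with rfl | rfl
  · exact ⟨fun _ => rfl, fun _ => one m⟩
  · exact ⟨fun h => absurd h (two m hm), fun h => absurd h (by decide)⟩

end Pool.Agent.Results.MP_fb2988_co.AtMostTwoStars
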