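import Mathlib

/-!
# MP_fb2988_co: families of special super edge-magic star forests with any number of components

Let `A, B ≥ 0`, `r ≥ 1` and `k : Fin A → Fin B → ℕ`. The star forest with `A + B + 1` components of sizes
`r`, `∑ b, (b+1) k a b` (one for each `a < A`) and `∑ a, (a+1) k a b` (one for each `b < B`) is special super edge-magic.
-/

set_option autoImplicit false

namespace Pool.Agent.Results.MP_fb2988_co.BlockExchangeFamilies

/-- The star forest with star sizes `m i`: the vertex `⟨i, none⟩` is the centre of the `i`-th star, the vertices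
`⟨i, some j⟩` are its `m i` leaves. -/
def starForest {ι : Type} (m : ι → ℕ) : SimpleGraph (Σ i : ι, Option (Fin (m i))) where
  Adj u v := u.1 = v.1 ∧ u.2.isNone ≠ v.2.isNone
  symm := ⟨fun _ _ h => ⟨h.1.symm, h.2.symm⟩⟩
  loopless := ⟨fun _ h => h.2 rfl⟩

/-- A finite graph is special super edge-magic: there are a partition of the vertex set into two stable sets `A`, `Aᶜ` and
a bijection `f` from the vertices onto `[1, p]` with `f(A) = [1, |A|]` such that the edge sums `f u + f v` are pairwise
different and form a set of consecutive integers. -/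
def IsSSEM {V : Type} [Fintype V] (G : SimpleGraph V) : Prop :=
  ∃ (A : Finset V) (f : V → ℕ),
    (∀ u ∈ A, ∀ v ∈ A, ¬ G.Adj u v) ∧ (∀ u ∉ A, ∀ v ∉ A, ¬ G.Adj u v) ∧
    Set.BijOn f Set.univ (Set.Icc 1 (Fintype.card V)) ∧
    f '' (A : Set V) = Set.Icc 1 A.card ∧
    (∀ u v u' v' : V, G.Adj u v → G.Adj u' v' → f u + f v = f u' + f v' → s(u, v) = s(u', v')) ∧
    ∃ s q : ℕ, {k | ∃ u v, G.Adj u v ∧ k = f u + f v} = Set.Ico s (s + q)

/-- `m` is realized with displacements `d`: some `g` splits `[0, q)` into classes of sizes `m i` such that moving the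
elements of class `i` by `d i` permutes `[0, q)`. -/
def Realz {ι : Type} [DecidableEq ι] (d : ι → ℤ) (q : ℕ) (m : ι → ℕ) : Prop :=
  ∃ g : ℕ → ι, (∀ i, ((Finset.range q).filter (fun y => g y = i)).card = m i) ∧
    (∀ y < q, 0 ≤ (y : ℤ) + d (g y) ∧ (y : ℤ) + d (g y) < q) ∧
    (∀ y < q, ∀ y' < q, (y : ℤ) + d (g y) = y' + d (g y') → y = y')

variable {ι : Type} [DecidableEq ι] {d : ι → ℤ}

theorem realz_zero (i0 : ι) : Realz d 0 (0 : ι → ℕ) :=
  ⟨fun _ => i0, by simp, by simp, by simp⟩

theorem realz_add {q₁ q₂ : ℕ} {m₁ m₂ : ι → ℕ} (h₁ : Realz d q₁ m₁) (h₂ : Realz d q₂ m₂) :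
    Realz d (q₁ + q₂) (m₁ + m₂) := by
  obtain ⟨g₁, a₁, b₁, c₁⟩ := h₁
  obtain ⟨g₂, a₂, b₂, c₂⟩ := h₂
  refine ⟨fun y => if y < q₁ then g₁ y else g₂ (y - q₁), ?_, ?_, ?_⟩
  · intro i
    rw [Pi.add_apply, ← a₁ i, ← a₂ i, Finset.card_filter, Finset.card_filter, Finset.card_filter,
      Finset.sum_range_add]
    congr 1
    · refine Finset.sum_congr rfl fun y hy => ?_
      rw [Finset.mem_range] at hy
      simp [hy]
    · refine Finset.sum_congr rfl fun y hy => ?_
      simp
  · intro y hy
    by_cases h : y < q₁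
    · have := b₁ y h
      simp only [h, if_true]
      push_cast
      constructor
      · exact this.1
      · have := this.2; omega
    · have := b₂ (y - q₁) (by omega)
      simp only [h, if_false]
      push_cast [Nat.cast_sub (not_lt.1 h)] at this ⊢
      constructor
      · have := this.1; omega
      · have := this.2; omega
  · intro y hy y' hy' e
    by_cases h : y < q₁ <;> by_cases h' : y' < q₁ <;> simp only [h, h', if_true, if_false] at e
    · exact c₁ y h y' h' e
    · have h1 := b₁ y h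
      have h2 := b₂ (y' - q₁) (by omega)
      push_cast [Nat.cast_sub (not_lt.1 h')] at h2
      omega
    · have h1 := b₁ y' h'
      have h2 := b₂ (y - q₁) (by omega)
      push_cast [Nat.cast_sub (not_lt.1 h)] at h2
      omega
    · have := c₂ (y - q₁) (by omega) (y' - q₁) (by omega)
        (by push_cast [Nat.cast_sub (not_lt.1 h), Nat.cast_sub (not_lt.1 h')]; omega)
      omega

theorem realz_fixed (i0 : ι) (h0 : d i0 = 0) : Realz d 1 (Pi.single i0 1) := by
  refine ⟨fun _ => i0, ?_, ?_, ?_⟩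
  · intro i
    by_cases h : i0 = i
    · subst h; simp
    · simp [h, Ne.symm h]
  · intro y hy; simp [h0]; omega
  · intro y hy y' hy' _; omega

theorem realz_exchange (i j : ι) (a b : ℕ) (hi : d i = b) (hj : d j = -a) :
    Realz d (a + b) (Pi.single i a + Pi.single j b) := by
  refine ⟨fun y => if y < a then i else j, ?_, ?_, ?_⟩
  · intro l
    rw [Finset.card_filter, Finset.sum_range_add]
    have h1 : ∑ x ∈ Finset.range a, (if (if x < a then i else j) = l then 1 else 0) =
        (Pi.single i a : ι → ℕ) l := by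
      rw [Finset.sum_congr rfl (g := fun _ => if i = l then 1 else 0) (fun x hx => by
        rw [Finset.mem_range] at hx; simp [hx])]
      by_cases h : i = l
      · subst h; simp
      · simp [h, Ne.symm h]
    have h2 : ∑ x ∈ Finset.range b, (if (if a + x < a then i else j) = l then 1 else 0) =
        (Pi.single j b : ι → ℕ) l := by
      rw [Finset.sum_congr rfl (g := fun _ => if j = l then 1 else 0) (fun x hx => by simp)]
      by_cases h : j = l
      · subst h; simp
      · simp [h, Ne.symm h]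
    rw [h1, h2, Pi.add_apply]
  · intro y hy
    by_cases h : y < a
    · simp only [h, if_true, hi]; push_cast; omega
    · simp only [h, if_false, hj]; push_cast; omega
  · intro y hy y' hy' e
    by_cases h : y < a <;> by_cases h' : y' < a <;> simp only [h, h', if_true, if_false, hi, hj] at e <;>
      omega

theorem realz_nsmul (i0 : ι) {q : ℕ} {m : ι → ℕ} (h : Realz d q m) (n : ℕ) :
    ∃ q', Realz d q' (n • m) := by
  induction n with
  | zero => exact ⟨0, by simpa using realz_zero i0⟩
  | succ n ih =>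
    obtain ⟨q', h'⟩ := ih
    exact ⟨q' + q, by rw [succ_nsmul]; exact realz_add h' h⟩

theorem realz_sum (i0 : ι) {κ : Type} (s : Finset κ) (m : κ → ι → ℕ) (h : ∀ k ∈ s, ∃ q, Realz d q (m k)) :
    ∃ q, Realz d q (∑ k ∈ s, m k) := by
  classical
  induction s using Finset.induction_on with
  | empty => exact ⟨0, by simpa using realz_zero i0⟩
  | insert a s ha ih =>
    obtain ⟨q₁, h₁⟩ := h a (Finset.mem_insert_self _ _)
    obtain ⟨q₂, h₂⟩ := ih fun k hk => h k (Finset.mem_insert_of_mem hk)
    exact ⟨q₁ + q₂, by rw [Finset.sum_insert ha]; exact realz_add h₁ h₂⟩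

theorem adj_leaf (m : ι → ℕ) (i : ι) (j : Fin (m i)) :
    (starForest m).Adj ⟨i, none⟩ ⟨i, some j⟩ := ⟨rfl, by simp⟩

theorem adj_cases (m : ι → ℕ) (u v : Σ i : ι, Option (Fin (m i))) (h : (starForest m).Adj u v) :
    ∃ (i : ι) (j : Fin (m i)), (u = ⟨i, none⟩ ∧ v = ⟨i, some j⟩) ∨ (u = ⟨i, some j⟩ ∧ v = ⟨i, none⟩) := by
  obtain ⟨i, a⟩ := u
  obtain ⟨i', b⟩ := v
  obtain ⟨h1, h2⟩ := h
  dsimp only at h1 h2
  subst h1
  cases a with
  | none =>
    cases b with
    | none => exact absurd rfl h2
    | some j => exact ⟨i, j, Or.inl ⟨rfl, rfl⟩⟩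
  | some j =>
    cases b with
    | none => exact ⟨i, j, Or.inr ⟨rfl, rfl⟩⟩
    | some j' => exact absurd rfl h2

theorem ssem_of_realz [Fintype ι] (A B : ℕ) (hdinj : Function.Injective d)
    (hd : ∀ z : ℤ, (∃ i, d i = z) ↔ (-(A : ℤ) ≤ z ∧ z ≤ B)) (hcard : Fintype.card ι = A + B + 1)
    {q : ℕ} {m : ι → ℕ} (h : Realz d q m) : IsSSEM (starForest m) := by
  classical
  obtain ⟨g, hg, hb, hc⟩ := h
  have e : ∀ i, Fin (m i) ≃ {y // y ∈ (Finset.range q).filter (fun y => g y = i)} :=
    fun i => (Finset.equivFinOfCardEq (hg i)).symm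
  have hdb : ∀ i, -(A : ℤ) ≤ d i ∧ d i ≤ B := fun i => (hd (d i)).1 ⟨i, rfl⟩
  have hy : ∀ i (j : Fin (m i)), (e i j).1 < q ∧ g (e i j).1 = i := by
    intro i j
    have := (e i j).2
    rw [Finset.mem_filter, Finset.mem_range] at this
    exact this
  let f : (Σ i : ι, Option (Fin (m i))) → ℕ :=
    fun v => v.2.elim ((A : ℤ) + 1 + d v.1).toNat (fun j => A + B + 2 + (e v.1 j).1)
  have hf0 : ∀ i, (f ⟨i, none⟩ : ℤ) = A + 1 + d i := by
    intro i
    have := hdb i
    change (((A : ℤ) + 1 + d i).toNat : ℤ) = _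
    exact Int.toNat_of_nonneg (by omega)
  have hf1 : ∀ i (j : Fin (m i)), f ⟨i, some j⟩ = A + B + 2 + (e i j).1 := fun i j => rfl
  have hsumq : ∑ i, m i = q := by
    have := Finset.card_eq_sum_card_fiberwise (f := g) (s := Finset.range q)
      (t := (Finset.univ : Finset ι)) (fun x _ => by simp)
    simpa [hg] using this.symm
  have hcardV : Fintype.card (Σ i : ι, Option (Fin (m i))) = A + B + 1 + q := by
    rw [Fintype.card_sigma]
    simp only [Fintype.card_option, Fintype.card_fin]
    rw [Finset.sum_add_distrib, hsumq]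
    simp [hcard]
    omega
  have hsurj : ∀ z < q, ∃ y < q, (y : ℤ) + d (g y) = z := by
    let π : Fin q → Fin q := fun y => ⟨((y : ℤ) + d (g y)).toNat, by have := hb y y.2; omega⟩
    have hinj : Function.Injective π := by
      intro y y' h
      have h1 := hb y y.2
      have h2 := hb y' y'.2
      have h3 : ((y : ℤ) + d (g y)).toNat = ((y' : ℤ) + d (g y')).toNat := congrArg Fin.val h
      exact Fin.ext (hc y y.2 y' y'.2 (by omega))
    intro z hz
    obtain ⟨y, hyz⟩ := (Finite.injective_iff_surjective.1 hinj) ⟨z, hz⟩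
    have h1 := hb y y.2
    have h3 : ((y : ℤ) + d (g y)).toNat = z := congrArg Fin.val hyz
    exact ⟨y, y.2, by omega⟩
  have hleafinj : ∀ i (j : Fin (m i)) i' (j' : Fin (m i')), (e i j).1 = (e i' j').1 →
      (⟨i, some j⟩ : (Σ i : ι, Option (Fin (m i)))) = ⟨i', some j'⟩ := by
    intro i j i' j' h
    have hi : i = i' := by rw [← (hy i j).2, ← (hy i' j').2, h]
    subst hi
    have : j = j' := (e i).injective (Subtype.ext h)
    rw [this]
  have hleafsurj : ∀ y < q, ∃ i, ∃ j : Fin (m i), (e i j).1 = y := by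
    intro y hyq
    refine ⟨g y, (e (g y)).symm ⟨y, by simp [hyq]⟩, by simp⟩
  have hadjc := adj_cases m
  have hmemA : ∀ v : (Σ i : ι, Option (Fin (m i))),
      v ∈ Finset.univ.image (fun i : ι => (⟨i, none⟩ : (Σ i : ι, Option (Fin (m i))))) ↔
        ∃ i, (⟨i, none⟩ : (Σ i : ι, Option (Fin (m i)))) = v := by
    intro v; simp
  have hcardA : (Finset.univ.image
      (fun i : ι => (⟨i, none⟩ : (Σ i : ι, Option (Fin (m i)))))).card = A + B + 1 := by
    rw [Finset.card_image_of_injective, Finset.card_univ, hcard]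
    intro i i' h
    exact congrArg Sigma.fst h
  refine ⟨Finset.univ.image (fun i : ι => (⟨i, none⟩ : (Σ i : ι, Option (Fin (m i))))), f,
    ?_, ?_, ?_, ?_, ?_, ?_⟩
  · intro u hu v hv huv
    rw [hmemA] at hu hv
    obtain ⟨i, rfl⟩ := hu
    obtain ⟨i', rfl⟩ := hv
    exact huv.2 rfl
  · intro u hu v hv huv
    rw [hmemA] at hu hv
    obtain ⟨i, j, ⟨h, -⟩ | ⟨-, h⟩⟩ := hadjc u v huv
    · exact hu ⟨i, h.symm⟩
    · exact hv ⟨i, h.symm⟩
  · rw [hcardV]
    refine ⟨?_, ?_, ?_⟩
    · rintro ⟨i, o⟩ _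
      cases o with
      | none =>
        have h1 := hf0 i
        have h2 := hdb i
        exact ⟨by omega, by omega⟩
      | some j =>
        have h1 := hf1 i j
        have h2 := (hy i j).1
        exact ⟨by omega, by omega⟩
    · rintro ⟨i, o⟩ _ ⟨i', o'⟩ _ h
      cases o with
      | none =>
        cases o' with
        | none =>
          have h1 := hf0 i
          have h2 := hf0 i'
          have : i = i' := hdinj (by omega)
          rw [this]
        | some j' =>
          exfalso
          have h1 := hf0 i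
          have h2 := hf1 i' j'
          have h3 := hdb i
          omega
      | some j =>
        cases o' with
        | none =>
          exfalso
          have h1 := hf0 i'
          have h2 := hf1 i j
          have h3 := hdb i'
          omega
        | some j' =>
          have h1 := hf1 i j
          have h2 := hf1 i' j'
          exact hleafinj i j i' j' (by omega)
    · rintro k ⟨h1, h2⟩
      by_cases hk : k ≤ A + B + 1
      · obtain ⟨i, hi⟩ := (hd ((k : ℤ) - A - 1)).2 (by omega)
        refine ⟨⟨i, none⟩, Set.mem_univ _, ?_⟩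
        have := hf0 i
        omega
      · obtain ⟨i, j, hj⟩ := hleafsurj (k - (A + B + 2)) (by omega)
        refine ⟨⟨i, some j⟩, Set.mem_univ _, ?_⟩
        have := hf1 i j
        omega
  · rw [hcardA]
    ext k
    constructor
    · rintro ⟨v, hv, rfl⟩
      rw [Finset.mem_coe, hmemA] at hv
      obtain ⟨i, rfl⟩ := hv
      have h1 := hf0 i
      have h2 := hdb i
      exact ⟨by omega, by omega⟩
    · rintro ⟨h1, h2⟩
      obtain ⟨i, hi⟩ := (hd ((k : ℤ) - A - 1)).2 (by omega)
      refine ⟨⟨i, none⟩, ?_, ?_⟩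
      · rw [Finset.mem_coe, hmemA]
        exact ⟨i, rfl⟩
      · have := hf0 i
        omega
  · have key : ∀ i (j : Fin (m i)) i' (j' : Fin (m i')),
        f ⟨i, none⟩ + f ⟨i, some j⟩ = f ⟨i', none⟩ + f ⟨i', some j'⟩ →
        (⟨i, some j⟩ : (Σ i : ι, Option (Fin (m i)))) = ⟨i', some j'⟩ ∧ i = i' := by
      intro i j i' j' h
      have h1 := hf0 i
      have h2 := hf0 i'
      have h3 := hf1 i j
      have h4 := hf1 i' j'
      have h5 := hc _ (hy i j).1 _ (hy i' j').1 (by rw [(hy i j).2, (hy i' j').2]; omega)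
      exact ⟨hleafinj i j i' j' h5, by rw [← (hy i j).2, ← (hy i' j').2, h5]⟩
    intro u v u' v' h h' he
    obtain ⟨i, j, ⟨h1, h2⟩ | ⟨h1, h2⟩⟩ := hadjc u v h <;>
      obtain ⟨i', j', ⟨h3, h4⟩ | ⟨h3, h4⟩⟩ := hadjc u' v' h' <;> subst h1 h2 h3 h4
    · obtain ⟨k1, k2⟩ := key i j i' j' (by omega)
      rw [k1, k2]
    · obtain ⟨k1, k2⟩ := key i j i' j' (by omega)
      rw [k1, k2, Sym2.eq_swap]
    · obtain ⟨k1, k2⟩ := key i j i' j' (by omega)
      rw [k1, k2, Sym2.eq_swap]
    · obtain ⟨k1, k2⟩ := key i j i' j' (by omega)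
      rw [k1, k2]
  · refine ⟨2 * A + B + 3, q, ?_⟩
    ext k
    constructor
    · rintro ⟨u, v, h, he⟩
      obtain ⟨i, j, ⟨h1, h2⟩ | ⟨h1, h2⟩⟩ := hadjc u v h <;> subst h1 h2 <;>
        have a1 := hf0 i <;> have a2 := hf1 i j <;> have a3 := hb _ (hy i j).1 <;>
        rw [(hy i j).2] at a3 <;> exact ⟨by omega, by omega⟩
    · rintro ⟨h1, h2⟩
      obtain ⟨y, hyq, hyz⟩ := hsurj (k - (2 * A + B + 3)) (by omega)
      obtain ⟨i, j, hj⟩ := hleafsurj y hyq
      refine ⟨⟨i, none⟩, ⟨i, some j⟩, adj_leaf m i j, ?_⟩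
      have a1 := hf0 i
      have a2 := hf1 i j
      have a3 := (hy i j).2
      rw [hj] at a3 a2
      rw [a3] at hyz
      omega

/-- The displacement of the stars: `0`, `-1, …, -A` and `1, …, B`. -/
def disp (A B : ℕ) : Option (Fin A ⊕ Fin B) → ℤ
  | none => 0
  | some (Sum.inl a) => -((a.val : ℤ) + 1)
  | some (Sum.inr b) => (b.val : ℤ) + 1

/-- The star sizes: `r`, `∑ b, (b+1) k a b` for `a < A`, `∑ a, (a+1) k a b` for `b < B` (indices from `0`). -/
def sizes (A B r : ℕ) (k : Fin A → Fin B → ℕ) : Option (Fin A ⊕ Fin B) → ℕ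
  | none => r
  | some (Sum.inl a) => ∑ b, (b.val + 1) * k a b
  | some (Sum.inr b) => ∑ a, (a.val + 1) * k a b

/-- For all `A, B, r` and every matrix `k` the star forest with these `A + B + 1` star sizes is special super edge-magic. -/
theorem result (A B r : ℕ) (k : Fin A → Fin B → ℕ) : IsSSEM (starForest (sizes A B r k)) := by
  have h1 : ∃ q, Realz (disp A B) q (r • (Pi.single none 1) + ∑ x : Fin A × Fin B,
      k x.1 x.2 • ((Pi.single (some (Sum.inr x.2)) (x.1.val + 1) : Option (Fin A ⊕ Fin B) → ℕ) +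
        Pi.single (some (Sum.inl x.1)) (x.2.val + 1))) := by
    obtain ⟨q₁, h₁⟩ := realz_nsmul (d := disp A B) none (realz_fixed none rfl) r
    obtain ⟨q₂, h₂⟩ := realz_sum (d := disp A B) none (Finset.univ : Finset (Fin A × Fin B))
      (fun x => k x.1 x.2 • ((Pi.single (some (Sum.inr x.2)) (x.1.val + 1) : Option (Fin A ⊕ Fin B) → ℕ) +
        Pi.single (some (Sum.inl x.1)) (x.2.val + 1))) (fun x _ =>
        realz_nsmul none (realz_exchange (some (Sum.inr x.2)) (some (Sum.inl x.1)) (x.1.val + 1) (x.2.val + 1)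
          (by simp [disp]) (by simp [disp])) _)
    exact ⟨q₁ + q₂, realz_add h₁ h₂⟩
  obtain ⟨q, hq⟩ := h1
  have h2 : sizes A B r k = r • (Pi.single none 1) + ∑ x : Fin A × Fin B,
      k x.1 x.2 • ((Pi.single (some (Sum.inr x.2)) (x.1.val + 1) : Option (Fin A ⊕ Fin B) → ℕ) +
        Pi.single (some (Sum.inl x.1)) (x.2.val + 1)) := by
    funext i
    rw [Pi.add_apply, Finset.sum_apply, Fintype.sum_prod_type]
    rcases i with _ | a | b
    · simp [sizes]
    · simp only [Pi.smul_apply, Pi.add_apply, sizes]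
      rw [Finset.sum_eq_single a]
      · simp [mul_comm]
      · intro a' _ ha'
        refine Finset.sum_eq_zero fun b _ => ?_
        simp [Pi.single_apply, Ne.symm ha']
      · intro h; exact absurd (Finset.mem_univ _) h
    · simp only [Pi.smul_apply, Pi.add_apply, sizes]
      rw [Finset.sum_comm, Finset.sum_eq_single b]
      · simp [mul_comm]
      · intro b' _ hb'
        refine Finset.sum_eq_zero fun a _ => ?_
        simp [Pi.single_apply, Ne.symm hb']
      · intro h; exact absurd (Finset.mem_univ _) h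
  rw [h2]
  refine ssem_of_realz A B ?_ ?_ ?_ hq
  · rintro (_ | a | b) (_ | a' | b') h <;> simp only [disp] at h
    · rfl
    · omega
    · omega
    · omega
    · have : a = a' := Fin.ext (by omega)
      rw [this]
    · omega
    · omega
    · omega
    · have : b = b' := Fin.ext (by omega)
      rw [this]
  · intro z
    constructor
    · rintro ⟨i, rfl⟩
      rcases i with _ | a | b <;> simp only [disp]
      · omega
      · have := a.2; omega
      · have := b.2; omega
    · rintro ⟨h1, h2⟩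
      rcases lt_trichotomy z 0 with h | h | h
      · exact ⟨some (Sum.inl ⟨(-z - 1).toNat, by omega⟩), by simp only [disp]; omega⟩
      · exact ⟨none, by simp [disp, h]⟩
      · exact ⟨some (Sum.inr ⟨(z - 1).toNat, by omega⟩), by simp only [disp]; omega⟩
  · simp

end Pool.Agent.Results.MP_fb2988_co.BlockExchangeFamilies
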